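import Pool.Agent.Lib.MP_fa793f_nt.Sharp

open Polynomial Pool.Agent.Lib.MP_fa793f_nt

/-- If `f` has a root that is not `R`-critical and is not in the forward orbit of infinity, then
the `p`-reduction of `R` has degree `d > 1` and the average degree is eventually at least `b * n`
for every `b < log_q d`; the factor `1` in front of `log_q d` is the largest possible. -/
theorem Pool.Agent.Lib.MP_fa793f_nt.Variants.sharpGrowth (F : Type) [Field F] [Fintype F] :
    IsGreatest {c : ℝ | ∀ g h f : F[X], IsCoprime g h → h ≠ 0 →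
      1 ≤ max g.natDegree h.natDegree → 1 ≤ f.natDegree →
      (∃ α : AlgebraicClosure F, aeval α f = 0 ∧ ¬ Critical (frac g h) α ∧
        ∀ j : ℕ, ¬ ValueAtInfty (iter (frac g h) j) α) →
      ∃ S : RatFunc F, IsReduction S (frac g h) ∧ 1 < deg S ∧
        ∀ b < c * Real.logb (Fintype.card F) (deg S),
          ∀ᶠ n : ℕ in Filter.atTop, b * n ≤ avgDeg ((transform g h)^[n] f)} 1 := by
  constructor
  · rintro g h f hc hh hd hf ⟨α, h1, h2, h3⟩
    simpa only [one_mul] using
      sharp_of_noncritical hc hh hd (by rintro rfl; simp at hf) h1 h2 h3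
  · intro c hc
    obtain ⟨S, h1, -, h2⟩ := hc (gq F) 1 X isCoprime_one_right one_ne_zero hd_gq (by simp)
      ⟨0, by simp, not_critical_gq, fun j => not_valueAtInfty_gq j 0⟩
    exact le_one_of_bound h1 h2
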